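import Pool.Agent.Work.MP_60d5ce_nt.Qt.Alg
import Pool.Agent.Work.MP_60d5ce_nt.Lb.LkAbs

/-!
# A nondegenerate skew pairing on torsion points determines the determinant
-/

namespace Pool.Agent.QS3

open PR0 Pool.Agent.Ell.AT Pool.Agent.Quad Pool.Agent.Lef

/-- a nondegenerate skew pairing on the `N`-torsion that `f` raises to the power `Q` -/
def HasPr (κ : Type) [Field κ] {A : Type} [AddCommGroup A] (N Q : ℕ) (f : A → A) : Prop :=
  ∃ e : A → A → κ,
    (∀ a a' b, N • a = 0 → N • a' = 0 → N • b = 0 → e (a + a') b = e a b * e a' b) ∧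
    (∀ a b, N • a = 0 → N • b = 0 → e a b * e b a = 1) ∧
    (∀ a b, N • a = 0 → N • b = 0 → e a b ^ N = 1) ∧
    (∀ a b, N • a = 0 → N • b = 0 → e (f a) (f b) = e a b ^ Q) ∧
    ∀ a, N • a = 0 → (∀ b, N • b = 0 → e a b = 1) → a = 0

section abs

variable {κ : Type} [Field κ] {A B : Type} [AddCommGroup A] [AddCommGroup B] {N Q : ℕ}
  {f : A → A} {g : B → B}

theorem HasPr.comap (h : HasPr κ N Q g) {j : A → B} (ha : AddOn (tors A N) j)
    (hi : Set.InjOn j (tors A N)) (hs : j '' (tors A N) = tors B N)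
    (hc : ∀ x ∈ tors A N, j (f x) = g (j x)) : HasPr κ N Q f := by
  obtain ⟨e, h1, h2, h3, h4, h5⟩ := h
  have ht : ∀ a, N • a = 0 → N • j a = 0 := fun a k => by
    have : j a ∈ (tors B N : Set B) := hs ▸ ⟨a, k, rfl⟩
    exact this
  refine ⟨fun a b => e (j a) (j b), fun a a' b k k' l => ?_, fun a b k l => h2 _ _ (ht a k) (ht b l),
    fun a b k l => h3 _ _ (ht a k) (ht b l), fun a b k l => ?_, fun a k l => ?_⟩
  · beta_reduce
    rw [ha a k a' k', h1 _ _ _ (ht a k) (ht a' k') (ht b l)]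
  · beta_reduce
    rw [hc a k, hc b l, h4 _ _ (ht a k) (ht b l)]
  · refine hi k (tors A N).zero_mem ?_
    rw [ha.zero]
    refine h5 _ (ht a k) fun b hb => ?_
    have : b ∈ j '' (tors A N) := hs ▸ hb
    obtain ⟨c, k1, rfl⟩ := this
    exact l c k1

theorem vec_split (T : TateB A) (n : ℕ) (t : V) :
    T.pt n t = T.pt n ((t 0).appr n • (![1, 0] : V) + (t 1).appr n • (![0, 1] : V)) := by
  rw [T.pt_eq_iff]
  intro i
  fin_cases i
  · simpa using TateMod_appr n (t 0)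
  · simpa using TateMod_appr n (t 1)

theorem HasPr.det (T : TateB A) {M : Matrix (Fin 2) (Fin 2) O} {J : ℕ}
    (hm : ∀ a, f (T.pt (J + 2) a) = T.pt (J + 2) (M.mulVec a)) (h : HasPr κ (2 ^ (J + 2)) Q f) :
    (2 : O) ^ (J + 1) ∣ M.det - Q := by
  obtain ⟨e, h1, h2, h3, h4, h5⟩ := h
  have ht := T.pow_smul_pt (J + 2)
  obtain ⟨w, hw⟩ : ∃ w : V → V → κ, ∀ s t, w s t = e (T.pt (J + 2) s) (T.pt (J + 2) t) :=
    ⟨_, fun _ _ => rfl⟩
  have a1 : ∀ s s' t, w (s + s') t = w s t * w s' t := fun s s' t => by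
    rw [hw, hw, hw, map_add, h1 _ _ _ (ht _) (ht _) (ht _)]
  have a2 : ∀ s t, w s t * w t s = 1 := fun s t => by rw [hw, hw, h2 _ _ (ht _) (ht _)]
  have a0 : ∀ s t, w s t ≠ 0 := fun s t => left_ne_zero_of_mul_eq_one (a2 s t)
  have a3 : ∀ s t t', w s (t + t') = w s t * w s t' := fun s t t' => by
    refine mul_left_cancel₀ (a0 (t + t') s) ?_
    rw [a2, a1]
    linear_combination -(w t' s * w s t') * a2 t s - a2 t' s
  have a4 : ∀ (n : ℕ) s t, w (n • s) t = w s t ^ n := fun n s t => by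
    induction n with
    | zero =>
      rw [zero_smul, pow_zero]
      refine mul_left_cancel₀ (a0 0 t) ?_
      rw [← a1, add_zero, mul_one]
    | succ n ih => rw [succ_nsmul, a1, ih, pow_succ]
  have a5 : ∀ (n : ℕ) s t, w s (n • t) = w s t ^ n := fun n s t => by
    refine mul_left_cancel₀ (a0 (n • t) s) ?_
    rw [a2, a4, ← mul_pow, a2, one_pow]
  have u2 : ∀ s, w s s ^ 2 = 1 := fun s => by rw [pow_two, a2]
  have hz : w ![1, 0] ![0, 1] ^ 2 ^ (J + 1) ≠ 1 := fun hz => by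
    have k : T.pt (J + 2) (2 ^ (J + 1) • (![1, 0] : V)) = 0 := h5 _ (ht _) fun b hb => by
      obtain ⟨t, rfl⟩ := T.surj _ b hb
      rw [vec_split T (J + 2) t, ← hw, a4, a3, a5, a5, mul_pow, ← pow_mul, ← pow_mul,
        mul_comm ((t 1).appr (J + 2)), pow_mul _ _ ((t 1).appr (J + 2)), hz, one_pow, mul_one,
        pow_succ' 2 J, mul_left_comm, pow_mul, u2, one_pow]
    have k1 := (T.ker _ _).1 k 0
    simp only [Pi.smul_apply, Matrix.cons_val_zero, nsmul_eq_mul, mul_one, Nat.cast_pow,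
      Nat.cast_ofNat] at k1
    rw [pow_succ _ (J + 1)] at k1
    have k2 : (2 : O) ∣ 1 :=
      (mul_dvd_mul_iff_left (pow_ne_zero (J + 1) (two_ne_zero (α := O)))).1 (by simpa using k1)
    have k3 := (res_eq_zero_iff (1 : O)).2 k2
    rw [map_one] at k3
    exact one_ne_zero k3
  have hz' : w ![1, 0] ![0, 1] ^ 2 ^ (J + 1 + 1) = 1 := by
    rw [hw]
    exact h3 _ _ (ht _) (ht _)
  have ho : orderOf (w ![1, 0] ![0, 1]) = 2 ^ (J + 1 + 1) := orderOf_eq_prime_pow hz hz'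
  have v1 : M.mulVec ![1, 0] = ![M 0 0, M 1 0] := by
    funext i; fin_cases i <;> simp [Matrix.mulVec, dotProduct]
  have v2 : M.mulVec ![0, 1] = ![M 0 1, M 1 1] := by
    funext i; fin_cases i <;> simp [Matrix.mulVec, dotProduct]
  have k := h4 _ _ (ht ![1, 0]) (ht ![0, 1])
  rw [hm, hm, v1, v2, vec_split T (J + 2) ![M 0 0, M 1 0], vec_split T (J + 2) ![M 0 1, M 1 1],
    ← hw, ← hw] at k
  simp only [Matrix.cons_val_zero, Matrix.cons_val_one] at k
  have p00 := TateMod_appr (J + 2) (M 0 0)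
  have p01 := TateMod_appr (J + 2) (M 0 1)
  have p10 := TateMod_appr (J + 2) (M 1 0)
  have p11 := TateMod_appr (J + 2) (M 1 1)
  generalize (M 0 0).appr (J + 2) = a at k p00
  generalize (M 0 1).appr (J + 2) = b at k p01
  generalize (M 1 0).appr (J + 2) = c at k p10
  generalize (M 1 1).appr (J + 2) = d at k p11
  simp only [a1, a3, a4, a5] at k
  have b1 := u2 ![1, 0]
  have b2 := u2 ![0, 1]
  have b3 := a2 ![1, 0] ![0, 1]
  generalize w ![1, 0] ![0, 1] = z at k b3 ho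
  generalize w ![0, 1] ![1, 0] = y at k b3
  generalize w ![1, 0] ![1, 0] = u at k b1
  generalize w ![0, 1] ![0, 1] = v at k b2
  have k2 : z ^ (2 * (a * d)) = z ^ (2 * (Q + b * c)) := by
    have e1 : z ^ (2 * (Q + b * c)) = (z ^ Q) ^ 2 * z ^ (2 * (b * c)) := by ring
    rw [e1, ← k]
    have e2 : (u ^ 2) ^ (a * b) = 1 := by rw [b1, one_pow]
    have e3 : (v ^ 2) ^ (c * d) = 1 := by rw [b2, one_pow]
    have e4 : (z * y) ^ (2 * (b * c)) = 1 := by rw [b3, one_pow]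
    calc z ^ (2 * (a * d)) = z ^ (2 * (a * d)) * (u ^ 2) ^ (a * b) * (v ^ 2) ^ (c * d) *
          (z * y) ^ (2 * (b * c)) := by rw [e2, e3, e4, mul_one, mul_one, mul_one]
      _ = _ := by ring
  have z0 : z ≠ 0 := left_ne_zero_of_mul_eq_one b3
  lift z to κˣ using IsUnit.mk0 z z0
  rw [orderOf_units] at ho
  rw [← Units.val_pow_eq_pow_val, ← Units.val_pow_eq_pow_val, Units.val_inj, pow_eq_pow_iff_modEq,
    ho, pow_succ' 2 (J + 1)] at k2
  have k3 := (Nat.ModEq.mul_left_cancel' two_ne_zero k2).symm.dvd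
  have k4 := TateMod_int (j := J + 1) (n := ((a * d : ℕ) : ℤ) - ((Q + b * c : ℕ) : ℤ))
    (by simpa using k3)
  have q : ∀ {x : O}, (2 : O) ^ (J + 2) ∣ x → (2 : O) ^ (J + 1) ∣ x := fun hx =>
    (pow_dvd_pow _ (Nat.le_succ _)).trans hx
  rw [Matrix.det_fin_two]
  refine (((((k4.add ((q p00).mul_right (M 1 1))).add ((q p11).mul_left a)).sub
    ((q p01).mul_right (M 1 0))).sub ((q p10).mul_left b)).trans (dvd_of_eq ?_))
  push_cast
  ring

end abs

section pic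

variable {κ K : Type} [Field κ] [Field K] [Algebra κ K] [IsAlgClosed κ] [Fact (IsFF κ K)]
  {N : ℕ} {c c' : Pic κ K}

theorem we_swap (hN : N ≠ 0) (h : N • c = 0) (h' : N • c' = 0) : we N c c' * we N c' c = 1 := by
  obtain ⟨g, E, k, rfl, -⟩ := Ev_ex h' 0 0
  obtain ⟨f, D, k1, rfl, d1, -⟩ := Ev_ex h E E
  rw [we_eq hN k1 k d1, we_eq hN k k1 d1.symm, div_mul_div_cancel₀ (k.off d1.symm).evD_ne,
    div_self (k1.off d1).evD_ne]

theorem we_zero (hN : N ≠ 0) (h : N • c = 0) : we N 0 c = 1 := by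
  have h1 := we_add_left hN (smul_zero N) (smul_zero N) h
  have h2 : we N 0 c ≠ 0 := fun e => by simpa [e, hN] using we_pow hN (smul_zero N) h
  rw [add_zero] at h1
  exact mul_left_cancel₀ h2 (h1.symm.trans (mul_one _).symm)

theorem pic_pr {p : ℕ} [Fact p.Prime] [CharP κ p] (h2 : (2 : κ) ≠ 0) {γ : SA κ K} {Q : ℕ}
    (hγ : IsFr p γ Q) (J : ℕ) : HasPr κ (2 ^ (J + 1)) Q (pa γ) := by
  have hN : 2 ^ (J + 1) ≠ 0 := pow_ne_zero _ two_ne_zero
  have hN' : ((2 ^ (J + 1) : ℕ) : κ) ≠ 0 := by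
    rw [Nat.cast_pow, Nat.cast_ofNat]
    exact pow_ne_zero _ h2
  have := NeZero.mk hN'
  obtain ⟨ζ, hζ⟩ := HasEnoughRootsOfUnity.exists_primitiveRoot κ (2 ^ (J + 1))
  obtain ⟨L, _, _, _, hL⟩ := exists_kf (AlgebraicClosure K) hN hζ (tors_finite κ K hN')
  obtain ⟨τ, s, h3, h4, -⟩ := main_hd hN hζ (tors_fr h2 J) hγ hL
  exact ⟨we (2 ^ (J + 1)), fun _ _ _ => we_add_left hN, fun _ _ => we_swap hN,
    fun _ _ => we_pow hN, fun a b k l => by rw [we_pa hN γ k l, hγ.c],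
    fun a k l => we_inj hN hζ (tors_fr h2 J) h3 h4 k (smul_zero _) fun b hb =>
      (l b hb).trans (we_zero hN hb).symm⟩

end pic

end Pool.Agent.QS3
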