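import Pool.Agent.Work.MP_60d5ce_nt.Qt.EllFin
import Pool.Agent.Work.MP_60d5ce_nt.S3.Pr

/-!
# The determinant of Frobenius at a good place
-/

namespace Pool.Agent.QS3

section curve

open PR0 Pool.Agent.Ell.AT Pool.Agent.Quad Pool.Agent.Lef WeierstrassCurve WeierstrassCurve.Affine

variable {κ : Type} [Field κ] {E : Affine κ}

theorem curve_pr [IsAlgClosed κ] [DecidableEq κ] (h : SW E) {p : ℕ} [Fact p.Prime] [CharP κ p]
    {f Q : ℕ} (hf : 0 < f) (hQ : Q = p ^ f) (h4 : E.a₄ ^ Q = E.a₄) (h6 : E.a₆ ^ Q = E.a₆)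
    {s : E.Point → E.Point} (hs : Cmp s fun c => c ^ Q) (J : ℕ) :
    HasPr κ (2 ^ (J + 1)) Q s := by
  obtain ⟨K, _, _, ⟨F⟩⟩ := exists_ef h
  have : Fact (IsFF κ K) := ⟨F.isFF⟩
  have : ExpChar κ p := ExpChar.prime Fact.out
  have hσ : ∀ c, iterateFrobeniusEquiv κ p f c = c ^ Q := fun c => by
    rw [iterateFrobeniusEquiv_def, hQ]
  obtain ⟨γ, g1, g2, g3⟩ := F.aut (iterateFrobeniusEquiv κ p f) ((hσ _).trans h4) ((hσ _).trans h6) 1
    (Or.inl rfl)
  rw [one_mul] at g3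
  have hγ : IsFr p γ Q := ⟨⟨f, hf, hQ⟩, fun c => by rw [g1, hσ], F.x, F.tr, g2⟩
  have m1 : ∀ z : Place κ K, F.x ∈ (γ • z).1 ↔ F.x ∈ z.1 := fun z => by
    have := sl_mem (σ := γ) (P := z) (a := F.x)
    rwa [g2] at this
  have m2 : ∀ z : Place κ K, F.x ∈ z.1 →
      (γ • z).val F.x = z.val F.x ^ Q ∧ (γ • z).val F.y = z.val F.y ^ Q := fun z hz => by
    have k1 := val_smul γ z hz
    have k2 := val_smul γ z (F.aff hz).1
    rw [g2, hγ.c] at k1
    rw [g3, hγ.c] at k2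
    exact ⟨k1, k2⟩
  have m0 : γ • F.pp h 0 = F.pp h 0 :=
    (F.pp_zero h _).1 fun k => (F.pp_zero h _).2 rfl ((m1 _).1 k)
  have key : ∀ P, γ • F.pp h P = F.pp h (s P) := fun P => by
    rcases P with _ | ⟨x0, y0, hn⟩
    · exact m0.trans (congrArg (F.pp h) hs.1.symm)
    · obtain ⟨hn', e⟩ := hs.2 x0 y0 hn
      obtain ⟨k1, k2, k3⟩ := (F.pp_some h hn _).2 rfl
      rw [e]
      exact (F.pp_some h hn' _).1 ⟨(m1 _).2 k1, by rw [(m2 _ k1).1, k2], by rw [(m2 _ k1).2, k3]⟩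
  have hA := pic_pr h.two hγ J
  obtain ⟨j, hj⟩ : ∃ j : E.Point →+ Pic κ K, ∀ P, j P = cl (F.dd h P) :=
    ⟨AddMonoidHom.mk' (fun P => cl (F.dd h P)) (F.cls_add h), fun _ => rfl⟩
  have inj : Function.Injective j :=
    (injective_iff_map_eq_zero j).2 fun P k => F.cls_inj h ((hj P).symm.trans k)
  have hc : ∀ P, j (s P) = pa γ (j P) := fun P => by
    rw [hj, hj, pa_cl, EF.dd, EF.dd, smul_sub, smul_single, smul_single, key, m0]
  have ht : ∀ P, P ∈ tors E.Point (2 ^ (J + 1)) ↔ j P ∈ tors (Pic κ K) (2 ^ (J + 1)) := fun P => by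
    rw [mem_tors, mem_tors, ← map_nsmul, map_eq_zero_iff j inj]
  refine hA.comap (j := j) (fun x _ y _ => map_add j x y) inj.injOn
    (Set.ext fun c => ⟨?_, fun k => ?_⟩) fun P _ => hc P
  · rintro ⟨P, k, rfl⟩
    exact (ht P).1 k
  · obtain ⟨u, -, D, k1, rfl⟩ := exists_kum (mem_tors.1 k)
    have k2 := dg_dv (K := κ) u
    rw [k1, ← natCast_zsmul, dg_smul] at k2
    obtain ⟨P, k3⟩ := F.cls_surj h ((mul_eq_zero.1 k2).resolve_left (by positivity))
    exact ⟨P, (ht P).2 (by rw [hj, k3]; exact k), (hj P).trans k3⟩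

end curve

section loc

open Pool.Agent.Quad Pool.Agent.Lef Pool.Agent.ShaAsc Polynomial

variable {k : Type} [Field k] [Fintype k] {Ω : Type} [Field Ω] [Algebra (RatFunc k) Ω]
  [Algebra k Ω] [IsScalarTower k (RatFunc k) Ω] {v : Pl k} {a b : k[X]}
  [IsSepClosure (RatFunc k) Ω] [DecidableEq Ω]

theorem good_pr (h6 : (6 : k) ≠ 0) (hD : dsc a b ≠ 0) (l : Loc Ω v)
    (hv : v ≠ none) (hv' : v ∉ fac (dsc a b)) {i : ℕ} (hi : 0 < i) (J : ℕ) :
    HasPr (Kb k Ω) (2 ^ (J + 1)) (Fintype.card k ^ (pdg v * i))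
      (act (EC a b) (gal (l.σ ^ i)) : Pts (EC a b) Ω → Pts (EC a b) Ω) := by
  have := IsSepClosure.sep_closed (RatFunc k) (K := Ω)
  choose! rd hrd using fun z (hz : l.w z ≤ 1) => l.w_res hz
  have hR : Rd l.w (algebraMap (Kb k Ω) Ω) rd := ⟨l.w_na, fun c hc => l.w_kb hc, hrd⟩
  let E' : WeierstrassCurve.Affine (Kb k Ω) := ⟨0, 0, 0, aeval l.x a, aeval l.x b⟩
  have hE' : SW E' := by
    refine ⟨rfl, rfl, rfl, fun h => ?_, six_ne_map (algebraMap k (Kb k Ω)) h6⟩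
    have e : (aeval l.x (dsc a b) : Kb k Ω) = 0 := by
      rw [← h, dsc]
      simp only [map_add, map_mul, map_pow, map_ofNat, E']
    have h1 := res_bp l hv (dsc a b)
    rw [e, ZeroMemClass.coe_zero, sub_zero, DLoc_dsc hD l hv hv'] at h1
    exact lt_irrefl _ h1
  obtain ⟨red, r0, r1, r2⟩ := exists_redPt hR (sw_co h6 hD) hE' (l.sz_one h6 hv)
    (hR.eq (res_bp l hv a)).2.symm (hR.eq (res_bp l hv b)).2.symm
  obtain ⟨p, hp⟩ := CharP.exists k
  obtain ⟨n, hp', hn⟩ := FiniteField.card k p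
  have : Fact p.Prime := ⟨hp'⟩
  have : CharP (Kb k Ω) p := charP_of_injective_algebraMap (algebraMap k (Kb k Ω)).injective p
  obtain ⟨s, hs⟩ := exists_cmp hE'
    ((frob k Ω ^ (pdg v * i) : Kb k Ω ≃ₐ[k] Kb k Ω) : Kb k Ω →+* Kb k Ω)
    ((frob_pow_apply _ _).trans (DLoc_fix l hv i a)) ((frob_pow_apply _ _).trans (DLoc_fix l hv i b))
  have hs' : Cmp s fun c => c ^ Fintype.card k ^ (pdg v * i) := by
    rw [← funext (frob_pow_apply (k := k) (Ω := Ω) (pdg v * i))]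
    exact hs
  have key : ∀ z, l.w z ≤ 1 → rd (gal (l.σ ^ i) z) = rd z ^ Fintype.card k ^ (pdg v * i) :=
    fun z hz => (hR.eq (by
      rw [map_pow]
      exact EllC.trans l.w_na (sigma_pow_res l i hz)
        (EllC.pow_sub l.w_na hz (DLoc_le l _) (hrd z hz) _))).2
  obtain ⟨a1, a2, a3⟩ := r2 (J + 1)
  refine (curve_pr hE' (mul_pos n.pos (mul_pos (pdg_pos v) hi)) (by rw [hn, ← pow_mul])
    (DLoc_fix l hv i a) (DLoc_fix l hv i b) hs' J).comap a1 a2 a3 fun P hP => ?_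
  have hP' : 2 ^ (J + 1) • act (EC a b) (gal (l.σ ^ i)) P = 0 := by
    rw [← map_nsmul, mem_tors.1 hP, map_zero]
  rcases P with _ | ⟨x, y, hxy⟩
  · exact ((congrArg red (map_zero _)).trans r0).trans (hs'.1.symm.trans (congrArg s r0.symm))
  · obtain ⟨h', e1⟩ := compat_act (A := a) (B := b) (gal (l.σ ^ i)) x y hxy
    obtain ⟨hx, hy, h1, e2⟩ := r1 x y hxy ⟨_, hP⟩
    rw [e1] at hP' ⊢
    obtain ⟨-, -, h2, e3⟩ := r1 _ _ h' ⟨_, hP'⟩
    obtain ⟨h3, e4⟩ := hs'.2 _ _ h1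
    obtain ⟨h4, e5⟩ := EllA_congr h2 (key x hx) (key y hy)
    rw [e2, e3, e4]
    exact e5

theorem good_det (X : EllD a b Ω) (h6 : (6 : k) ≠ 0) (hD : dsc a b ≠ 0) (l : Loc Ω v)
    (hv : v ≠ none) (hv' : v ∉ fac (dsc a b)) :
    (X.m (gal l.σ)).det = ((Fintype.card k ^ pdg v : ℕ) : O) := by
  refine sub_eq_zero.1 (eq_zero_of_forall_dvd fun J => ?_)
  have h := good_pr h6 hD l hv hv' one_pos (J + 1)
  rw [pow_one, mul_one] at h
  exact (pow_dvd_pow _ J.le_succ).trans (h.det X.TB fun t => X.act_pt _ _ t)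

theorem exists_good {D : k[X]} (hD : D ≠ 0) : ∃ v : Pl k, v ≠ none ∧ v ∉ fac D := by
  have hd : 0 < (D * X + 1).degree := by
    have h1 : 0 < (D * X).degree := by
      rw [degree_mul, degree_X, degree_eq_natDegree hD]
      exact_mod_cast Nat.succ_pos _
    rwa [degree_add_eq_left_of_degree_lt (by rwa [degree_one])]
  obtain ⟨P, hP, h1⟩ := exists_irreducible_of_degree_pos hd
  obtain ⟨v, hv, e⟩ := Quad.exists_pl hP
  refine ⟨v, hv, fun h2 => hP.not_isUnit (isUnit_of_dvd_one ?_)⟩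
  have h3 : P ∣ D := e.dvd.trans ((StatA_ne_zero_iff _ _).1 ((mem_fac hD).1 h2)).2
  exact (dvd_add_right (h3.mul_right X)).1 h1

end loc

section lat

open Pool.Agent.Quad

variable {W P : Type} [Group W] {T : Tame W P} (L : Lat T (Fin 2))

theorem det_eq_cq (h4 : ∀ g, (4 : O) ∣ (L.ρ g).det - T.cq g) {v : P}
    (hv : (L.ρ (T.σ v)).det = T.Q v) (g : W) : (L.ρ g).det = T.cq g := by
  let d : W → O := fun g => (L.ρ g).det * T.cq g⁻¹
  have hm : ∀ g h, d (g * h) = d g * d h := fun g h => by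
    simp only [d]
    rw [L.ρ_mul, Matrix.det_mul, mul_inv_rev, Tame.cq_mul]
    ring
  have h1 : ∀ g, (4 : O) ∣ d g - 1 := fun g => by
    refine EllM_dvd ((h4 g).mul_right (T.cq g⁻¹)) ?_
    simp only [d]
    linear_combination EllM_cq (T := T) g
  have hd0 : ∀ u, T.deg u = 0 → d u = (L.ρ u).det := fun u hu => by
    simp only [d]
    rw [Tame.cq_of_deg_zero (by rw [T.deg_inv, hu, neg_zero]), mul_one]
  have hs : ∀ j : ℕ, ∃ U, T.Adm U ∧ ∀ u ∈ U, (2 : O) ^ j ∣ d u - 1 := fun j => by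
    obtain ⟨U, hU, h⟩ := L.sm j
    refine ⟨U, hU, fun u hu => ?_⟩
    rw [hd0 u (T.adm_le U hU hu), Matrix.det_fin_two]
    have a0 := h u hu 0 0
    have a1 := h u hu 0 1
    have a2 := h u hu 1 1
    simp only [Matrix.sub_apply, Matrix.one_apply_eq, Matrix.one_apply_ne zero_ne_one,
      sub_zero] at a0 a1 a2
    refine EllM_dvd (((a0.mul_right (L.ρ u 1 1)).add a2).sub (a1.mul_right (L.ρ u 1 0))) ?_
    ring
  have h0 : d (T.σ v) = 1 := by
    simp only [d]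
    rw [hv, ← EllM_cq (T := T) (T.σ v), Tame.cq_σ]
  have hg : T.deg (T.σ v) ≠ 0 := by
    have := T.dg_pos v
    rw [T.deg_σ]
    omega
  have h5 := char_one d hm h1 hs hg h0 g
  simp only [d] at h5
  linear_combination T.cq g * h5 - (L.ρ g).det * EllM_cq (T := T) g

end lat

end Pool.Agent.QS3
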