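import Pool.Agent.Work.MP_60d5ce_nt.Lb.Main
import Pool.Agent.Work.MP_60d5ce_nt.S3.Loc

/-!
# The representation of a curve with full geometric monodromy modulo two

The statements of `Qt/EllFin.lean` and `Lb/Main.lean` under the weaker hypothesis `HypS`; the determinant
comes from the Weil pairing at a good place.
-/

namespace Pool.Agent.Quad

open scoped Classical
open Polynomial WeierstrassCurve WeierstrassCurve.Affine Pool.Agent.ShaAsc

noncomputable section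

variable {k : Type} [Field k] {A B : k[X]}

/-- no rational point of order two, and the discriminant is not a constant times a square -/
structure HypS (A B : k[X]) : Prop where
  noroot : ∀ r : RatFunc k,
    r ^ 3 + algebraMap k[X] (RatFunc k) A * r + algebraMap k[X] (RatFunc k) B ≠ 0
  mult : ∃ P : k[X], Irreducible P ∧ Odd (multiplicity P (4 * A ^ 3 + 27 * B ^ 2))

theorem HypS.D_ne (h : HypS A B) (h6 : (6 : k) ≠ 0) : dsc A B ≠ 0 := by
  intro h0
  have h2 : (2 : RatFunc k) ≠ 0 := two_ne_of_six (six_ne_map (algebraMap k (RatFunc k)) h6)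
  have h3 : (3 : RatFunc k) ≠ 0 := three_ne_of_six (six_ne_map (algebraMap k (RatFunc k)) h6)
  have e := congrArg (algebraMap k[X] (RatFunc k)) h0
  simp only [dsc, map_add, map_mul, map_pow, map_ofNat, map_zero] at e
  have hn := h.noroot
  generalize algebraMap k[X] (RatFunc k) A = a at e hn
  generalize algebraMap k[X] (RatFunc k) B = b at e hn
  by_cases ha : a = 0
  · refine hn 0 ?_
    have hb : (3 : RatFunc k) ^ 3 * b ^ 2 = 0 := by
      rw [ha] at e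
      linear_combination e
    have := pow_eq_zero_iff two_ne_zero |>.1 ((mul_eq_zero.1 hb).resolve_left (pow_ne_zero 3 h3))
    rw [this]
    ring
  · refine hn (-3 * b / (2 * a)) ?_
    field_simp
    linear_combination (-b) * e

section ext

variable {Ω : Type} [Field Ω] [Algebra (RatFunc k) Ω]

theorem HypS.sw (h : HypS A B) (h6 : (6 : k) ≠ 0) : SW (CO Ω A B) := by
  refine ⟨map_zero (algebraMap (RatFunc k) Ω), map_zero (algebraMap (RatFunc k) Ω),
    map_zero (algebraMap (RatFunc k) Ω), ?_, ?_⟩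
  · rw [CO_disc]
    exact bp_ne (h.D_ne h6)
  · have := bp_ne (Ω := Ω) (C_ne_zero.2 h6)
    rwa [map_ofNat, map_ofNat] at this

/-- a root of the cubic has degree three -/
theorem HypS.quad_ne (h : HypS A B) {e : Ω} (he : e ^ 3 + bp Ω A * e + bp Ω B = 0) {c0 c1 c2 : k[X]}
    (hc : ¬ (c0 = 0 ∧ c1 = 0 ∧ c2 = 0)) : bp Ω c0 + bp Ω c1 * e + bp Ω c2 * e ^ 2 ≠ 0 := by
  intro h0
  set a := algebraMap k[X] (RatFunc k) with ha
  let f : (RatFunc k)[X] := X ^ 3 + C (a A) * X + C (a B)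
  have hfd : f.natDegree = 3 := by
    simp only [f]
    compute_degree!
  have hfm : f.Monic := by
    simp only [f]
    monicity!
  have hirr : Irreducible f := by
    rw [hfm.irreducible_iff_roots_eq_zero_of_degree_le_three (by omega) (by omega)]
    refine Multiset.eq_zero_of_forall_notMem fun r hr => h.noroot r ?_
    have := (mem_roots hfm.ne_zero).1 hr
    simpa [f] using this
  have hf0 : aeval e f = 0 := by
    simp only [f, map_add, map_mul, map_pow, aeval_X, aeval_C]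
    exact he
  have hmin := minpoly.eq_of_irreducible_of_monic hirr hf0 hfm
  let g : (RatFunc k)[X] := C (a c2) * X ^ 2 + C (a c1) * X + C (a c0)
  have hg0 : aeval e g = 0 := by
    simp only [g, map_add, map_mul, map_pow, aeval_X, aeval_C]
    rw [← h0]
    simp only [bp_apply]
    ring
  have hgd : g.natDegree ≤ 2 := by
    simp only [g]
    compute_degree
  have hgz : g = 0 := by
    by_contra hg
    have := natDegree_le_of_dvd (hmin ▸ minpoly.dvd (RatFunc k) e hg0) hg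
    omega
  have inj := RatFunc.algebraMap_injective k
  refine hc ⟨?_, ?_, ?_⟩
  · have := congrArg (fun p => coeff p 0) hgz
    simp only [g, coeff_add, coeff_C_mul, coeff_X_pow, coeff_X, coeff_C, coeff_zero] at this
    exact (map_eq_zero_iff a inj).1 (by simpa [-map_eq_zero] using this)
  · have := congrArg (fun p => coeff p 1) hgz
    simp only [g, coeff_add, coeff_C_mul, coeff_X_pow, coeff_X, coeff_C, coeff_zero] at this
    exact (map_eq_zero_iff a inj).1 (by simpa [-map_eq_zero] using this)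
  · have := congrArg (fun p => coeff p 2) hgz
    simp only [g, coeff_add, coeff_C_mul, coeff_X_pow, coeff_X, coeff_C, coeff_zero] at this
    exact (map_eq_zero_iff a inj).1 (by simpa [-map_eq_zero] using this)

end ext

theorem HypS.exists_pl (h : HypS A B) :
    ∃ v : Pl k, v ≠ none ∧ Odd (Quad.mult (dsc A B) v) := by
  obtain ⟨P, hP, h3⟩ := h.mult
  obtain ⟨v, hv, e⟩ := Quad.exists_pl hP
  exact ⟨v, hv, by rwa [mult_eq hv e]⟩

variable [Fintype k] {Ω : Type} [Field Ω] [Algebra (RatFunc k) Ω] [Algebra k Ω]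
  [IsScalarTower k (RatFunc k) Ω] [IsSepClosure (RatFunc k) Ω] {v : Pl k} [DecidableEq Ω]

theorem Loc.tau_fixS (h6 : (6 : k) ≠ 0) (h : HypS A B) (l : Loc Ω v) (hv : v ∉ badS A B) {j : ℕ}
    {y : Pts (EC A B) Ω} (hy : 2 ^ j • y = 0) : act (EC A B) (gal l.τ) y = y := by
  obtain ⟨h1, h2, -⟩ := (not_mem_badS (h.D_ne h6)).1 hv
  refine (h.sw h6).unram (l.sz_one h6 h1) ?_ (compat_act (gal l.τ)) (fun a ha => l.τ_res ha) hy
  rw [CO_disc, l.w_base h1 (h.D_ne h6), h2]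
  simp

omit [Fintype k] [Algebra k Ω] [IsScalarTower k (RatFunc k) Ω] in
theorem exists_ellDS (h : HypS A B) (h6 : (6 : k) ≠ 0) : Nonempty (EllD A B Ω) := by
  have := IsSepClosure.sep_closed (RatFunc k) (K := Ω)
  have hs : SW (CO Ω A B) := h.sw h6
  obtain ⟨e1, e2, e3, rt⟩ := hs.exists_rt
  obtain ⟨TB, h1, h2⟩ := exists_tateB (tp (CO Ω A B) e1) (tp (CO Ω A B) e2) hs.exists_half
    rt.two_tp rt.swap12.two_tp rt.indep rt.span
  exact ⟨⟨e1, e2, e3, rt, TB, h1, h2⟩⟩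

namespace EllD

variable (X : EllD A B Ω)

/-- the lattice -/
def latS (h : HypS A B) (h6 : (6 : k) ≠ 0) (ℓ : Locs k Ω) : Lat (tame h6 ℓ) (Fin 2) where
  ρ g := X.m (gal g)
  ρ_one := by rw [map_one, map_one]
  ρ_mul g g' := by rw [map_mul, map_mul]
  S := badS A B
  inf_mem := Finset.mem_insert_self _ _
  unr v hv := X.TB.mat_one fun _ _ hP => (ℓ v).tau_fixS h6 h hv hP
  sm j := by
    obtain ⟨U, h1, h2⟩ := X.adm j
    exact ⟨U, h1, fun u hu => (X.TB.mat_dvd_iff _ _).2 (h2 u hu)⟩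

section

variable {h : HypS A B} {h6 : (6 : k) ≠ 0} {ℓ : Locs k Ω}

theorem gal_erS (g : WG k Ω) (n : Vb) :
    gal g (X.er n) = X.er (((X.latS h h6 ℓ).rb g).mulVec n) := X.act_er (gal g) n

end

variable (h : HypS A B) (h6 : (6 : k) ≠ 0) (ℓ : Locs k Ω)

theorem four_fixS {g : WG k Ω} (hg : (X.latS h h6 ℓ).Fx g ![1, 1]) :
    (4 : O) ∣ ((X.latS h h6 ℓ).ρ g).det - (tame h6 ℓ).cq g := by
  have hP : 2 • X.TB.pt 2 ![1, 0] = tp (CO Ω A B) X.e1 := (X.TB.two 1 _).trans X.h1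
  have hQ : 2 • X.TB.pt 2 ![0, 1] = tp (CO Ω A B) X.e2 := (X.TB.two 1 _).trans X.h2
  have h3 : gal g X.e3 = X.e3 := by
    have := X.gal_erS (h := h) (h6 := h6) (ℓ := ℓ) g ![1, 1]
    rwa [hg, er11] at this
  have act : ∀ a : V, gal g (sl X.e3 (X.TB.pt 2 a : (CO Ω A B).Point)) =
      sl X.e3 (X.TB.pt 2 (((X.latS h h6 ℓ).ρ g).mulVec a) : (CO Ω A B).Point) := fun a => by
    have := (compat_act (A := A) (B := B) (gal g)).sl_eq X.e3 (X.TB.pt 2 a)
    rw [X.act_pt, RingHom.coe_coe, h3] at this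
    exact this.symm
  have sP : ∀ x y : O, sl X.e3 (X.TB.pt 2 ![1 + 2 * x, 2 * y] : (CO Ω A B).Point) =
      (-1) ^ (res x).val * sl X.e3 (X.TB.pt 2 ![1, 0] : (CO Ω A B).Point) := fun x y => by
    rw [← EllFour_sl X.rt _ (res y).val hP, ← X.h1, ← X.h2, ← EllFour_pt]
    simp
  have sQ : ∀ x y : O, sl X.e3 (X.TB.pt 2 ![2 * x, 1 + 2 * y] : (CO Ω A B).Point) =
      (-1) ^ (res y).val * sl X.e3 (X.TB.pt 2 ![0, 1] : (CO Ω A B).Point) := fun x y => by
    rw [← EllFour_sl X.rt.swap12 _ (res x).val hQ, ← X.h1, ← X.h2, add_comm ((res y).val • _),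
      ← EllFour_pt]
    simp
  have p2 := (X.rt.half_sl hP).1
  have q2 := (X.rt.swap12.half_sl hQ).1
  have a1 := act ![1, 0]
  have a2 := act ![0, 1]
  have hd := (X.latS h h6 ℓ).EllM_rb g
  have f0 := congrFun hg 0
  have f1 := congrFun hg 1
  simp only [Lat.rb] at hd f0 f1
  generalize (X.latS h h6 ℓ).ρ g = M at a1 a2 hd f0 f1 ⊢
  generalize sl X.e3 (X.TB.pt 2 ![1, 0] : (CO Ω A B).Point) = p at a1 p2 sP
  generalize sl X.e3 (X.TB.pt 2 ![0, 1] : (CO Ω A B).Point) = q at a2 q2 sQ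
  have hne := sub_ne_zero.2 X.rt.ne12
  have p0 : p ≠ 0 := fun e => hne (by rw [← p2, e]; simp)
  have q0 : q ≠ 0 := fun e => hne (by rw [e] at q2; linear_combination q2)
  have hi : (p / q) ^ 2 = -1 := by
    rw [div_pow, div_eq_iff (pow_ne_zero 2 q0)]
    linear_combination p2 + q2
  have hi' : q / p = -(p / q) := by
    rw [← neg_div, div_eq_div_iff p0 q0]
    linear_combination p2 + q2
  obtain ⟨c1, c2⟩ := cq_four h6 ℓ hi g
  rw [map_div₀] at c1 c2
  have v1 : M.mulVec ![1, 0] = ![M 0 0, M 1 0] := by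
    funext i; fin_cases i <;> simp [Matrix.mulVec, dotProduct]
  have v2 : M.mulVec ![0, 1] = ![M 0 1, M 1 1] := by
    funext i; fin_cases i <;> simp [Matrix.mulVec, dotProduct]
  rw [v1] at a1
  rw [v2] at a2
  rw [Matrix.det_fin_two] at hd ⊢
  simp only [Matrix.mulVec, dotProduct, Fin.sum_univ_two, Matrix.map_apply, Matrix.cons_val_zero,
    Matrix.cons_val_one, mul_one] at hd f0 f1
  have t00 := tl_spec (M 0 0)
  have t01 := tl_spec (M 0 1)
  have t10 := tl_spec (M 1 0)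
  have t11 := tl_spec (M 1 1)
  have cs : ∀ a b c d : F2, a * d - b * c = 1 → a + b = 1 → c + d = 1 →
      (a = 1 ∧ b = 0 ∧ c = 0 ∧ d = 1) ∨ (a = 0 ∧ b = 1 ∧ c = 1 ∧ d = 0) := by decide
  generalize tl (M 0 0) = x at t00
  generalize tl (M 0 1) = z at t01
  generalize tl (M 1 0) = y at t10
  generalize tl (M 1 1) = w at t11
  rcases cs _ _ _ _ hd f0 f1 with ⟨b1, b2, b3, b4⟩ | ⟨b1, b2, b3, b4⟩ <;>
    simp only [b1, b2, b3, b4, lft_zero, lft_one, zero_add] at t00 t01 t10 t11 <;>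
    rw [t00, t10] at a1 <;> rw [t01, t11] at a2 <;> rw [t00, t01, t10, t11]
  · rw [a1, a2, sP, sQ, mul_div_mul_comm] at c1 c2
    rcases EllFour_sign (K := Ω) x w with ⟨d1, r, d2⟩ | ⟨d1, r, d2⟩ <;> rw [d1] at c1 c2
    · obtain ⟨s, hs⟩ := c1 (one_mul _)
      exact ⟨r + x * w - z * y - s, by linear_combination 2 * d2 - hs⟩
    · obtain ⟨s, hs⟩ := c2 (neg_one_mul _)
      exact ⟨r + x * w - z * y - s, by linear_combination 2 * d2 - hs⟩
  · rw [a1, a2, sP, sQ, mul_div_mul_comm, hi'] at c1 c2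
    rcases EllFour_sign (K := Ω) y z with ⟨d1, r, d2⟩ | ⟨d1, r, d2⟩ <;> rw [d1] at c1 c2
    · obtain ⟨s, hs⟩ := c2 (one_mul _)
      exact ⟨-r + x * w - z * y - s, by linear_combination -2 * d2 - hs⟩
    · obtain ⟨s, hs⟩ := c1 (by ring)
      exact ⟨-r + x * w - z * y - s, by linear_combination -2 * d2 - hs⟩

theorem tau_oddS (hv : v ≠ none) (ho : Odd (mult (dsc A B) v)) :
    (X.latS h h6 ℓ).rb (ℓ v).τ ≠ 1 ∧ (X.latS h h6 ℓ).rb (ℓ v).τ ≠ !![0, 1; 1, 1] ∧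
      (X.latS h h6 ℓ).rb (ℓ v).τ ≠ !![1, 1; 1, 0] := by
  have hd : ((X.e1 - X.e2) * (X.e1 - X.e3) * (X.e2 - X.e3)) ^ 2 = -bp Ω (dsc A B) := by
    rw [X.rt.disc_eq, CO_disc]
  have h0 : (X.e1 - X.e2) * (X.e1 - X.e3) * (X.e2 - X.e3) ≠ 0 :=
    mul_ne_zero (mul_ne_zero (sub_ne_zero.2 X.rt.ne12) (sub_ne_zero.2 X.rt.ne13))
      (sub_ne_zero.2 X.rt.ne23)
  have h1 := (ℓ v).kum_tau h6 h0 (by rw [hd, map_neg, fix_bp]) (n := mult (dsc A B) v)
    (by rw [hd, AbsoluteValue.map_neg, (ℓ v).w_base hv (h.D_ne h6)])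
  have h2 : gal (ℓ v).τ ((X.e1 - X.e2) * (X.e1 - X.e3) * (X.e2 - X.e3)) ≠
      (X.e1 - X.e2) * (X.e1 - X.e3) * (X.e2 - X.e3) := fun e => by
    rw [kum_eq_zero_iff.2 e, Int.cast_natCast, eq_comm, ZMod.natCast_eq_zero_iff_even] at h1
    exact Nat.not_even_iff_odd.2 ho h1
  have g1 := X.gal_erS (h := h) (h6 := h6) (ℓ := ℓ) (ℓ v).τ ![1, 0]
  have g2 := X.gal_erS (h := h) (h6 := h6) (ℓ := ℓ) (ℓ v).τ ![0, 1]
  have g3 := X.gal_erS (h := h) (h6 := h6) (ℓ := ℓ) (ℓ v).τ ![1, 1]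
  rw [X.er10] at g1
  rw [X.er01] at g2
  rw [X.er11] at g3
  rw [map_mul, map_mul, map_sub, map_sub, map_sub, g1, g2, g3] at h2
  refine ⟨fun e => h2 ?_, fun e => h2 ?_, fun e => h2 ?_⟩
  · rw [e, Matrix.one_mulVec, Matrix.one_mulVec, Matrix.one_mulVec, X.er10, X.er01, X.er11]
  · rw [e, EllDet_rot.1, EllDet_rot.2.1, EllDet_rot.2.2, X.er10, X.er01, X.er11]
    ring
  · rw [e, EllDet_rot'.1, EllDet_rot'.2.1, EllDet_rot'.2.2, X.er10, X.er01, X.er11]
    ring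

theorem irrS (n : Vb) (hn : ∀ g, (X.latS h h6 ℓ).Fx g n) : n = 0 := by
  by_contra h0
  obtain ⟨b, hb⟩ := fixed_all (ℓ none).σ (ℓ none).deg_σ (a := X.er n) fun g => by
    have e : ((X.latS h h6 ℓ).rb g).mulVec n = n := hn g
    rw [X.gal_erS (h := h) (h6 := h6) (ℓ := ℓ), e]
  refine h.noroot b ((algebraMap (RatFunc k) Ω).injective ?_)
  rw [map_add, map_add, map_mul, map_pow, map_zero, hb]
  exact X.er_root h0

theorem surjS (m : Matrix (Fin 2) (Fin 2) F2) (hm : m.det = 1) :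
    ∃ z, (tame h6 ℓ).deg z = 0 ∧ (X.latS h h6 ℓ).rb z = m := by
  obtain ⟨v, hv, ho⟩ := h.exists_pl
  obtain ⟨h1, h2, h3⟩ := X.tau_oddS h h6 ℓ hv ho
  exact (X.latS h h6 ℓ).surj_of (ℓ v).deg_τ h1 h2 h3 (X.irrS h h6 ℓ) m hm

theorem det_eqS (g : WG k Ω) : ((X.latS h h6 ℓ).ρ g).det = (tame h6 ℓ).cq g := by
  obtain ⟨z, -, hz⟩ := X.surjS h h6 ℓ !![0, 1; 1, 1] (by decide)
  obtain ⟨v, hv, hv'⟩ := QS3.exists_good (h.D_ne h6)
  refine QS3.det_eq_cq (X.latS h h6 ℓ)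
    ((X.latS h h6 ℓ).det_four hz fun g hg => X.four_fixS h h6 ℓ hg) (v := v) ?_ g
  exact QS3.good_det X h6 (h.D_ne h6) (ℓ v) hv hv'

end EllD

theorem EllD.chiS (X : EllD A B Ω) (h : HypS A B) (h6 : (6 : k) ≠ 0) (ℓ : Locs k Ω)
    (hv : v ∉ badS A B) (n : Vb) (hn : (X.latS h h6 ℓ).Fx (ℓ v).σ n) :
    ∃ w, (X.latS h h6 ℓ).Z1 w ∧ (∀ u, u ≠ v → u ∉ badS A B → w (ℓ u).τ = 0) ∧ w (ℓ v).τ = n := by
  by_cases hn0 : n = 0
  · exact ⟨0, Lat.z1_zero, fun _ _ _ => rfl, hn0.symm⟩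
  have hint : ∀ u : Pl k, u ≠ none → ∀ m : Vb, m ≠ 0 → (ℓ u).w (X.er m) ≤ 1 := fun u hu m hm => by
    have := ((ℓ u).sz_one h6 hu).w_root_le (X.er_root hm)
    rwa [one_pow] at this
  obtain ⟨hv1, -, hv3⟩ := (not_mem_badS (h.D_ne h6)).1 hv
  obtain ⟨c0, c1, c2, hc, d0, d1, d2, hlt⟩ := (ℓ v).exists_alpha hv1 (hint v hv1 n hn0)
    ((X.gal_erS (h := h) (h6 := h6) (ℓ := ℓ) _ n).trans (congrArg X.er hn))
  obtain ⟨a, a0, a1⟩ : ∃ a : Vb → Ω, a 0 = 1 ∧
      ∀ m, m ≠ 0 → a m = bp Ω c0 + bp Ω c1 * X.er m + bp Ω c2 * X.er m ^ 2 :=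
    ⟨fun m => if m = 0 then 1 else bp Ω c0 + bp Ω c1 * X.er m + bp Ω c2 * X.er m ^ 2, if_pos rfl,
      fun m hm => if_neg hm⟩
  have ha : ∀ m, a m ≠ 0 := fun m => by
    by_cases hm : m = 0
    · rw [hm, a0]
      exact one_ne_zero
    · rw [a1 m hm]
      exact h.quad_ne (X.er_root hm) hc
  have hg : ∀ (g : WG k Ω) m, gal g (a m) = a (((X.latS h h6 ℓ).rb g).mulVec m) := fun g m => by
    by_cases hm : m = 0
    · rw [hm, Matrix.mulVec_zero, a0, map_one]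
    · rw [a1 m hm, a1 _ fun e => hm (Lat.rb_mulVec_eq_zero e), map_add, map_add, map_mul, map_mul,
        map_pow, fix_bp, fix_bp, fix_bp, X.gal_erS (h := h) (h6 := h6) (ℓ := ℓ)]
  obtain ⟨w, hw, hw1⟩ := exists_coc (X.latS h h6 ℓ) a ha hg
  have hprod : a ![1, 0] * a ![0, 1] * a ![1, 1] = bp Ω (nrm A B c0 c1 c2) := by
    rw [a1 _ (by decide), a1 _ (by decide), a1 _ (by decide), X.er10, X.er01, X.er11, X.rt.nrm_eq,
      EllChi_map, CO_a4, CO_a6]
  have hN : nrm A B c0 c1 c2 ≠ 0 := fun e => by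
    rw [e, map_zero] at hprod
    exact mul_ne_zero (mul_ne_zero (ha _) (ha _)) (ha _) hprod
  have hdeg := nrm_natDegree A B d0 d1 d2
  generalize nrm A B c0 c1 c2 = N at hprod hN hdeg
  have key : ∀ u ∉ badS A B, ∃ j : Vb → ℤ, (∀ m, (ℓ u).w (a m) = 2 ^ (-j m)) ∧ (∀ m, 0 ≤ j m) ∧
      j ![1, 0] + j ![0, 1] + j ![1, 1] = mult N u ∧
      w (ℓ u).τ = (j ![1, 0] : F2) • ![1, 0] + (j ![0, 1] : F2) • ![0, 1] +
        (j ![1, 1] : F2) • ![1, 1] := by
    intro u hu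
    have hu1 := ((not_mem_badS (h.D_ne h6)).1 hu).1
    have hr : (X.latS h h6 ℓ).rb (ℓ u).τ = 1 := Lat.rb_unr (R := X.latS h h6 ℓ) (v := u) hu
    have hτ : ∀ m, gal (ℓ u).τ (a m) = a m := fun m => by rw [hg, hr, Matrix.one_mulVec]
    obtain ⟨U, hU, hU1⟩ := Lat.rb_sm (R := X.latS h h6 ℓ)
    have h1 : ∀ m, ∃ j : ℤ, (ℓ u).w (a m) = 2 ^ (-j) := fun m => by
      obtain ⟨j, hj⟩ := (ℓ u).disc U hU (a m) (ha m) (fun g hg' => by
        have h2 := hU1 1 g hg'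
        rw [one_mul, Lat.rb_one] at h2
        rw [hg, h2, Matrix.one_mulVec]) (hτ m)
      exact ⟨-j, by rw [neg_neg]; exact hj⟩
    choose j hj using h1
    refine ⟨j, hj, fun m => ?_, ?_, ?_⟩
    · have h2 : (ℓ u).w (a m) ≤ 1 := by
        by_cases hm : m = 0
        · rw [hm, a0, map_one]
        · have h3 := hint u hu1 m hm
          have h4 := (ℓ u).w.nonneg (X.er m)
          rw [a1 m hm]
          refine ((ℓ u).w_na _ _).trans (max_le (((ℓ u).w_na _ _).trans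
            (max_le ((ℓ u).w_bp_le hu1 _) ?_)) ?_)
          · rw [map_mul]
            exact mul_le_one₀ ((ℓ u).w_bp_le hu1 _) h4 h3
          · rw [map_mul, map_pow]
            exact mul_le_one₀ ((ℓ u).w_bp_le hu1 _) (pow_nonneg h4 2) (pow_le_one₀ h4 h3)
      rw [hj, zpow_le_one_iff_right₀ one_lt_two] at h2
      omega
    · have h2 := congrArg (ℓ u).w hprod
      rw [map_mul, map_mul, hj, hj, hj, (ℓ u).w_base hu1 hN, ← zpow_add₀ two_ne_zero,
        ← zpow_add₀ two_ne_zero] at h2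
      have h3 := zpow_right_injective₀ two_pos one_lt_two.ne' h2
      omega
    · have h2 : ∀ m, kum (sqr (a m)) (gal (ℓ u).τ) = (j m : F2) := fun m => by
        have h3 := sqr_spec (k := k) h6 (a m)
        refine (ℓ u).kum_tau h6 (fun e => ha m ?_) (by rw [h3, hτ]) (by rw [h3, hj])
        rw [← h3, e, zero_pow two_ne_zero]
      rw [hw1 _ hr, EllChi_sum fun m => kum (sqr (a m)) (gal (ℓ u).τ), h2, h2, h2]
  obtain ⟨j, j1, j2, j3, j4⟩ := key v hv
  have hj : 0 < j n := by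
    rw [← a1 n hn0, j1, zpow_lt_one_iff_right₀ one_lt_two] at hlt
    omega
  have p1 := j2 ![1, 0]
  have p2 := j2 ![0, 1]
  have p3 := j2 ![1, 1]
  have hm0 : mult N v ≠ 0 := by
    rcases EllD.vb_cases n with rfl | rfl | rfl | rfl
    · exact absurd rfl hn0
    all_goals omega
  obtain ⟨m1, m2⟩ := EllChi_mult hN hdeg hv3 hm0
  refine ⟨w, hw, fun u huv hu => ?_, ?_⟩
  · obtain ⟨i, -, i2, i3, i4⟩ := key u hu
    have q0 := m2 u huv ((not_mem_badS (h.D_ne h6)).1 hu).2.2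
    have q1 := i2 ![1, 0]
    have q2 := i2 ![0, 1]
    have q3 := i2 ![1, 1]
    rw [i4, show i ![1, 0] = 0 by omega, show i ![0, 1] = 0 by omega, show i ![1, 1] = 0 by omega]
    simp only [Int.cast_zero, zero_smul, add_zero]
  · rw [j4]
    rcases EllD.vb_cases n with rfl | rfl | rfl | rfl
    · exact absurd rfl hn0
    · rw [show j ![1, 0] = 1 by omega, show j ![0, 1] = 0 by omega, show j ![1, 1] = 0 by omega]
      simp only [Int.cast_zero, Int.cast_one, zero_smul, one_smul, add_zero]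
    · rw [show j ![1, 0] = 0 by omega, show j ![0, 1] = 1 by omega, show j ![1, 1] = 0 by omega]
      simp only [Int.cast_zero, Int.cast_one, zero_smul, one_smul, add_zero, zero_add]
    · rw [show j ![1, 0] = 0 by omega, show j ![0, 1] = 0 by omega, show j ![1, 1] = 1 by omega]
      simp only [Int.cast_zero, Int.cast_one, zero_smul, one_smul, add_zero, zero_add]

theorem exists_erepS (h : HypS A B) (h6 : (6 : k) ≠ 0) (ℓ : Locs k Ω) :
    Nonempty (ERep A B h6 ℓ) := by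
  obtain ⟨X⟩ := exists_ellDS (Ω := Ω) h h6
  exact ⟨{
    TB := X.TB
    R := {
      toLat := X.latS h h6 ℓ
      det := X.det_eqS h h6 ℓ
      surj := X.surjS h h6 ℓ
      chi := fun _ hv n hn => by
        obtain ⟨w, h1, h2, h3⟩ := X.chiS h h6 ℓ hv n hn
        refine ⟨w, ⟨h1, fun u hu => ?_⟩, h3⟩
        simp only [Finset.mem_insert, not_or] at hu
        exact h2 u hu.1 hu.2
      locfin := X.locfin h6 ℓ _ }
    act_pt := fun g => X.act_pt (gal g) }⟩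

end

end Pool.Agent.Quad

namespace Pool.Agent.Lef

open scoped Classical Topology
open Pool.Agent.Quad Pool.Agent.ShaAsc Polynomial Filter

variable {k : Type} [Field k] [Fintype k] {A B : k[X]}

section

variable {Ω : Type} [Field Ω] [Algebra (RatFunc k) Ω] [Algebra k Ω]
  [IsScalarTower k (RatFunc k) Ω] [IsSepClosure (RatFunc k) Ω] [DecidableEq Ω]
  {h6 : (6 : k) ≠ 0} {ℓ : Locs k Ω}

theorem erep_locS (h : HypS A B) (X : ERep A B h6 ℓ) (x : WG k Ω → F2) (v : Pl k) (t : V)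
    (h1 : X.R.act x (ℓ v).σ t = t) (h2 : X.R.act x (ℓ v).τ t = t) : t = 0 := by
  obtain ⟨Y⟩ := exists_ellDS (Ω := Ω) h h6
  obtain ⟨c, hc⟩ := Y.tors_fin h6 (ℓ v)
  have key : ∀ (g : WG k Ω) (j : ℕ), X.R.act x g t = t →
      act (EC A B) (gal g) (X.TB.pt j t) = X.TB.pt j t ∨
        act (EC A B) (gal g) (X.TB.pt j t) = -X.TB.pt j t := by
    intro g j hg
    rw [X.act_pt]
    rw [Lat.act] at hg
    rcases F2_cases (x g) with e | e
    · rw [e, sg_zero, one_smul] at hg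
      exact Or.inl (by rw [hg])
    · rw [e, sg_one, neg_smul, one_smul, neg_eq_iff_eq_neg] at hg
      exact Or.inr (by rw [hg, map_neg])
  funext i
  refine eq_zero_of_forall_dvd fun j => ?_
  have h3 := hc (X.TB.pt (c + j) t) (c + j) (X.TB.pow_smul_pt _ _) (key _ _ h1) (key _ _ h2)
  rw [X.TB.pow_smul_add, X.TB.ker] at h3
  exact h3 i

theorem erep_lserS (h : HypS A B) (X : ERep A B h6 ℓ) (F : ℕ → Type) [∀ n, Field (F n)]
    [∀ n, Algebra k (F n)] (hF : ∀ n, Module.finrank k (F n) = n + 1) :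
    ∃ c0 : ℕ, ∀ (d : k[X]) (δ : Ω) (A0 : Finset (Pl k)), d ≠ 0 →
      δ ^ 2 = algebraMap (RatFunc k) Ω (algebraMap k[X] (RatFunc k) d) →
      (tame h6 ℓ).IsHom (fun g => kum δ (gal g)) → X.R.Ram (fun g => kum δ (gal g)) A0 →
      X.R.Good A0 (fun g => kum δ (gal g)) c0 →
      ∃ p : ℚ[X], LSer F (d ^ 2 * A) (d ^ 3 * B) = (p : PowerSeries ℚ) ∧
        p.rootMultiplicity (Fintype.card k : ℚ)⁻¹ ≤ 1 := by
  obtain ⟨c0, hc⟩ := abs_main (lefAx h6 ℓ) X.R
  refine ⟨c0, fun d δ A0 hd hδ hx hA hG => ?_⟩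
  obtain ⟨M, hM⟩ := X.exists_gm hd hδ
  have hD : dsc (d ^ 2 * A) (d ^ 3 * B) ≠ 0 := by
    have e : dsc (d ^ 2 * A) (d ^ 3 * B) = d ^ 6 * dsc A B := by
      simp only [dsc]
      ring
    rw [e]
    exact mul_ne_zero (pow_ne_zero _ hd) (h.D_ne h6)
  have hm : ∀ (g : WG k Ω) (j : ℕ) (a : V), M.a g (M.pt j a) =
      M.pt j ((mat X.R (fun g => kum δ (gal g)) g).mulVec a) := fun g j a => by
    rw [M.a_pt, act_eq]
  refine hc _ A0 hx hA hG M (insert none (fac (dsc (d ^ 2 * A) (d ^ 3 * B))))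
    (Finset.insert_nonempty _ _) (fun v hv => ?_) (fun v _ t h1 h2 => erep_locS h X _ v t h1 h2)
    (fun n => frobSum (F n) (d ^ 2 * A) (d ^ 3 * B)) fun n => ?_
  · rw [Finset.mem_insert, not_or] at hv
    refine (M.toTateB.mat_unique (hm (ℓ v).τ)).symm.trans (M.toTateB.mat_one fun j P hP => ?_)
    rw [hM]
    exact good_tau h6 hD (ℓ v) hv.1 hv.2 hP
  · rw [frobSum_places h6 ℓ hD n.succ_pos (hF n), Int.cast_sum]
    refine Finset.sum_congr rfl fun v hv => ?_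
    obtain ⟨h1, ⟨i, hi⟩, -⟩ := (mem_Pd (T := tame h6 ℓ)).1 hv
    rw [Finset.mem_insert, not_or] at h1
    have hi' : n + 1 = pdg v * i := hi
    have hi0 : 0 < i := Nat.pos_of_ne_zero fun e => by
      rw [e, mul_zero] at hi'
      exact n.succ_ne_zero hi'
    have hdiv : (n + 1) / (tame h6 ℓ).dg v = i := by
      rw [hi]
      exact Nat.mul_div_cancel_left _ ((tame h6 ℓ).dg_pos v)
    rw [hdiv, Int.cast_mul, Int.cast_natCast]
    refine congrArg₂ (· * ·) rfl (eq_of_rO fun j => ?_)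
    have t1 := good_trace h6 hD (ℓ v) h1.1 h1.2 hi0 j
    have t2 := (ofB M.toTateB).hasTr (j := j + 1) (hm ((ℓ v).σ ^ i) (j + 1))
    rw [hM] at t2
    refine Eq.trans ?_ (t1.unique t2)
    rw [map_intCast, ← hi', Int.cast_sub, Int.cast_natCast, Int.cast_natCast]

end

theorem main_lserS (h6 : (6 : k) ≠ 0) (h : HypS A B) (F : ℕ → Type) [∀ n, Field (F n)]
    [∀ n, Algebra k (F n)] (hF : ∀ n, Module.finrank k (F n) = n + 1) :
    Tendsto (fun n : ℕ => ({d : k[X] | d ≠ 0 ∧ d.natDegree = n ∧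
      ∃ p : ℚ[X], LSer F (d ^ 2 * A) (d ^ 3 * B) = (p : PowerSeries ℚ) ∧
        p.rootMultiplicity (Fintype.card k : ℚ)⁻¹ ≤ 1}.ncard : ℝ) /
      ({d : k[X] | d ≠ 0 ∧ d.natDegree = n}.ncard : ℝ)) atTop (𝓝 1) := by
  letI : Algebra k (SeparableClosure (RatFunc k)) :=
    ((algebraMap (RatFunc k) (SeparableClosure (RatFunc k))).comp
      (algebraMap k (RatFunc k))).toAlgebra
  haveI : IsScalarTower k (RatFunc k) (SeparableClosure (RatFunc k)) :=
    IsScalarTower.of_algebraMap_eq fun _ => rfl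
  let ℓ : Locs k (SeparableClosure (RatFunc k)) := fun v => (exists_loc h6 v).some
  obtain ⟨X0⟩ := exists_erepS h h6 ℓ
  obtain ⟨c0, hc⟩ := erep_lserS h X0 F hF
  refine tendsto_of_density _ fun ε hε => ?_
  filter_upwards [good_density h6 ℓ X0.R c0 hε] with n hn
  refine le_trans ?_ hn
  refine Nat.cast_le.2 (Set.ncard_le_ncard (fun d hd => ⟨hd.1, fun ht => hd.2 ?_⟩)
    ((Pn_finite n).subset fun d hd => hd.1))
  have hδ := sqr_spec h6 (algebraMap (RatFunc k) (SeparableClosure (RatFunc k))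
    (algebraMap k[X] (RatFunc k) d))
  obtain ⟨m, hm⟩ := kum_eq_xd h6 ℓ hd.1.1 hδ
  have he := funext hm
  exact hc d _ (Ad X0.R d) hd.1.1 hδ (he ▸ xd_hom h6 ℓ d m) (he ▸ ram_xd X0.R hd.1.1 m)
    (he ▸ ht m)

end Pool.Agent.Lef
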